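import Mathlib
import Pool.Agent.Helper82.ETN.Num4
import Pool.Agent.E3S.Final
import Pool.Agent.Helper3.E3.UV
import Pool.Agent.Helper3.E3.NumGen

/-!
# E-T (MP_12a1af_nt), phase 3: the numerical part of the final assembly
-/

open Finset Filter Topology

namespace Pool.Agent.Helper82.E3

open Pool.Agent.Helper29.ETK (CC lg kk Gq)
open Pool.Agent.Helper29.E3 (EpFn ep epo gth ms)
open Pool.Agent.E3S
open Pool.Agent.Helper3.E3 (UV rpow_of_le_pow rpow_of_pow_le failA_ev')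
open Pool.Agent.Helper82.ETN (CC_pos one_lt_CC pow_lg_le lt_pow_lg two_pow_kk_le lg_le_log
  pow_lg_le_rpow log_pow_le_all sN sN_le)

variable [EpFn] {u v : ℕ}

/-- lower bound of the near threshold -/
lemma gth_ge (H : UV u v) (c K : ℕ) (hc : 1 ≤ c) :
    K ^ u ≤ (CC c ^ 21 * (2 ^ 14 * (3 * lg c K + 10)) * gth c K) ^ v := by
  have h1 := lt_pow_lg (c := c) (K := K) hc
  set E := epo c K with hE
  have huv : u ≤ v := by have := H.h2; omega
  have hElg : E ≤ lg c K := by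
    have := Pool.Agent.Helper29.E3.epf_le (lg c K - 1)
    rw [hE]; unfold epo; omega
  have h2 : CC c ^ (E - 1 - 1) ≤ gth c K * 2 ^ (10 + kk (E - 1)) := by
    unfold gth Gq CC
    rw [← hE, ← pow_mul, ← pow_add]
    exact Nat.pow_le_pow_right two_pos (by omega)
  have h3 : 2 ^ (10 + kk (E - 1)) ≤ 2 ^ 14 * (3 * lg c K + 10) := by
    rw [pow_add]
    have := two_pow_kk_le (E - 1)
    have h4 : 16 * (3 * (E - 1) + 10) ≤ 16 * (3 * lg c K + 10) := by omega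
    calc 2 ^ 10 * 2 ^ kk (E - 1) ≤ 2 ^ 10 * (16 * (3 * lg c K + 10)) :=
          Nat.mul_le_mul_left _ (this.trans h4)
      _ = 2 ^ 14 * (3 * lg c K + 10) := by ring
  have h5 : CC c ^ (E - 1 - 1) ≤ (2 ^ 14 * (3 * lg c K + 10)) * gth c K := by
    calc CC c ^ (E - 1 - 1) ≤ gth c K * 2 ^ (10 + kk (E - 1)) := h2
      _ ≤ gth c K * (2 ^ 14 * (3 * lg c K + 10)) := Nat.mul_le_mul_left _ h3
      _ = _ := by ring
  have h6 : u * (lg c K + 1) ≤ v * (21 + (E - 1 - 1)) := by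
    have h7 := H.lo (lg c K - 1)
    have h8 : EpFn.epf (lg c K - 1) = E := rfl
    rw [h8] at h7
    calc u * (lg c K + 1) ≤ u * ((lg c K - 1) + 2) := Nat.mul_le_mul_left _ (by omega)
      _ = u * (lg c K - 1) + u * 2 := by ring
      _ ≤ v * (E + 17) + v * 2 := Nat.add_le_add h7 (Nat.mul_le_mul_right _ huv)
      _ = v * (E + 19) := by ring
      _ ≤ _ := Nat.mul_le_mul_left _ (by omega)
  calc K ^ u ≤ (CC c ^ (lg c K + 1)) ^ u := Nat.pow_le_pow_left h1.le _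
    _ = CC c ^ (u * (lg c K + 1)) := by rw [← pow_mul, mul_comm]
    _ ≤ CC c ^ (v * (21 + (E - 1 - 1))) := Nat.pow_le_pow_right (CC_pos c) h6
    _ = (CC c ^ 21 * CC c ^ (E - 1 - 1)) ^ v := by rw [← pow_add, ← pow_mul, mul_comm]
    _ ≤ (CC c ^ 21 * ((2 ^ 14 * (3 * lg c K + 10)) * gth c K)) ^ v :=
        Nat.pow_le_pow_left (Nat.mul_le_mul_left _ h5) _
    _ = _ := by congr 1; ring

lemma gth_pos (c K : ℕ) : 1 ≤ gth c K := by
  unfold gth Gq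
  exact Nat.one_le_two_pow

lemma exists_le_gth (H : UV u v) {c : ℕ} (hc : 2 ≤ c) : ∃ G0 : ℝ, 0 < G0 ∧ ∀ K : ℕ, 1 ≤ K →
    (K:ℝ) ^ ((u:ℝ) / v) ≤ G0 * (1 + Real.log K) * gth c K := by
  have hC1 : (1:ℝ) ≤ CC c := by exact_mod_cast CC_pos c
  refine ⟨(CC c : ℝ) ^ 21 * ((2 ^ 14 * 10 : ℕ) : ℝ), by positivity, fun K hK => ?_⟩
  have h1 := rpow_of_le_pow H.v0 (gth_ge H c K (by omega))
  have h2 := lg_le_log hc hK
  have h0 : (0:ℝ) ≤ lg c K := Nat.cast_nonneg _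
  have h3 : ((2 ^ 14 * (3 * lg c K + 10) : ℕ) : ℝ) ≤ ((2 ^ 14 * 10 : ℕ) : ℝ) * (1 + Real.log K) := by
    push_cast
    linarith
  have h4 : ((CC c ^ 21 * (2 ^ 14 * (3 * lg c K + 10)) * gth c K : ℕ) : ℝ) =
      (CC c : ℝ) ^ 21 * ((2 ^ 14 * (3 * lg c K + 10) : ℕ) : ℝ) * gth c K := by
    rw [Nat.cast_mul, Nat.cast_mul, Nat.cast_pow]
  rw [h4] at h1
  refine h1.trans ?_
  have h5 : (0:ℝ) ≤ gth c K := Nat.cast_nonneg _
  have h6 : (0:ℝ) ≤ (CC c : ℝ) ^ 21 := by positivity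
  calc (CC c : ℝ) ^ 21 * ((2 ^ 14 * (3 * lg c K + 10) : ℕ) : ℝ) * gth c K
      ≤ (CC c : ℝ) ^ 21 * (((2 ^ 14 * 10 : ℕ) : ℝ) * (1 + Real.log K)) * gth c K :=
        mul_le_mul_of_nonneg_right (mul_le_mul_of_nonneg_left h3 h6) h5
    _ = _ := by ring

/-- the number of admissible beginnings -/
def sF (c K : ℕ) : ℕ := sN (2 * CC c) (gth c) K

lemma uv_half (H : UV u v) : (1/2 : ℝ) ≤ (u:ℝ) / v ∧ (u:ℝ) / v ≤ 2/3 := by
  have hv : (0:ℝ) < v := by exact_mod_cast H.v0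
  have h1 : (v:ℝ) ≤ 2 * u := by exact_mod_cast H.h1
  have h2 : (3:ℝ) * u ≤ 2 * v := by exact_mod_cast H.h2
  constructor
  · rw [le_div_iff₀ hv]; linarith
  · rw [div_le_iff₀ hv]; linarith

lemma fail_lt (H : UV u v) {a b c K1 : ℕ} (hc : 2 ≤ c) (hK1 : 1 ≤ K1) : ∃ K0 : ℕ, K1 ≤ K0 ∧
    ∀ Kmax, ∑ K ∈ Icc K0 Kmax, Pool.Agent.E3F.failA (mmF a b c) (sF c) (epsF c) K < 1 := by
  obtain ⟨G0, hG0, hG⟩ := exists_le_gth H hc
  obtain ⟨c2, hc2, hlog2⟩ := log_pow_le_all 1 (1/12) (by norm_num)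
  have huv := uv_half H
  have HA := failA_ev' (C := 2 * CC c) (K1 := K1) (e := 1/12) (g := gth c) (mm := mmF a b c)
    (ε := epsF c) (by norm_num) (by have := CC_pos c; omega) (fun K _ => gth_pos c K)
    (by
      refine ⟨G0 * c2, by positivity, fun K hK => ?_⟩
      have hK' : 1 ≤ K := hK1.trans hK
      have hKr : (1:ℝ) ≤ K := by exact_mod_cast hK'
      have hKp : (0:ℝ) < K := by linarith
      have e1 := hG K hK'
      have e2 := hlog2 K hK'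
      rw [pow_one] at e2
      have e4 : (K:ℝ) ^ (1/12 : ℝ) * (K:ℝ) ^ (1/12 : ℝ) ≤ (K:ℝ) ^ ((u:ℝ) / v) := by
        rw [← Real.rpow_add hKp]
        exact Real.rpow_le_rpow_of_exponent_le hKr (by linarith [huv.1])
      have e5 : 0 < (K:ℝ) ^ (1/12 : ℝ) := Real.rpow_pos_of_pos hKp _
      refine le_of_mul_le_mul_right ?_ e5
      refine e4.trans ?_
      calc (K:ℝ) ^ ((u:ℝ) / v) ≤ G0 * (1 + Real.log K) * gth c K := e1
        _ ≤ G0 * (c2 * (K:ℝ) ^ (1/12 : ℝ)) * gth c K :=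
            mul_le_mul_of_nonneg_right (mul_le_mul_of_nonneg_left e2 hG0.le) (Nat.cast_nonneg _)
        _ = G0 * c2 * gth c K * (K:ℝ) ^ (1/12 : ℝ) := by ring)
    (by
      refine ⟨3 * a + b + 3, by positivity, fun K hK => ?_⟩
      have hK' : 1 ≤ K := hK1.trans hK
      have h1 : lg c K ≤ K := Nat.log_le_self (CC c) K
      have h2 : mmF a b c K ≤ (3 * a + b + 3) * K ^ 2 := by
        unfold mmF lenF
        have h3 : a * (lg c K + 2) ≤ a * (3 * K) := Nat.mul_le_mul_left _ (by omega)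
        have h4 : K ≤ K ^ 2 := by nlinarith
        nlinarith
      exact_mod_cast h2)
    (by
      intro K _
      have e : 8 * (2 * CC c) = 16 * CC c := by ring
      rw [e]
      unfold epsF
      exact ⟨by positivity, le_refl _⟩)
  obtain ⟨K0, h0⟩ := (HA.and (eventually_ge_atTop K1)).exists_forall_of_atTop
  refine ⟨K0, (h0 K0 le_rfl).2, fun Kmax => ?_⟩
  refine lt_of_le_of_lt (Finset.sum_le_sum (fun K hK => ?_))
    (Pool.Agent.ETP.sum_half_pow_lt K0 Kmax)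
  rw [mem_Icc] at hK
  have h1 := (h0 K hK.1).1
  have h2 : ((1:ℝ)/2) ^ (K+1) = (1/2) ^ (K+2) + (1/2) ^ (K+2) := by ring
  have h3 : (0:ℝ) ≤ (1/2) ^ (K+2) := by positivity
  have h4 : Pool.Agent.E3F.failA (mmF a b c) (sF c) (epsF c) K =
    Pool.Agent.ETP.failA (mmF a b c) (sN (2 * CC c) (gth c)) (epsF c) K := rfl
  rw [h4]
  linarith

/-- the number of admissible beginnings has the order of the complementary power -/
lemma sF_le (H : UV u v) {c : ℕ} (hc : 2 ≤ c) {e : ℝ} (he : 0 < e) : ∃ C0 : ℝ, 0 < C0 ∧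
    ∀ K : ℕ, 1 ≤ K → (sF c K : ℝ) ≤ C0 * (K:ℝ) ^ (1 - (u:ℝ) / v + e : ℝ) := by
  obtain ⟨G0, hG0, hG⟩ := exists_le_gth H hc
  obtain ⟨c2, hc2, hlog2⟩ := log_pow_le_all 1 e he
  have huv := uv_half H
  have hC : (0:ℝ) < CC c := by exact_mod_cast CC_pos c
  refine ⟨64 * CC c * (G0 * c2) + 1, by positivity, fun K hK => ?_⟩
  have hKr : (1:ℝ) ≤ K := by exact_mod_cast hK
  have hKp : (0:ℝ) < K := by linarith
  have h1 := sN_le (2 * CC c) (gth c) K (gth_pos c K)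
  have hg0 : (0:ℝ) < gth c K := by exact_mod_cast gth_pos c K
  have e1 := hG K hK
  have e2 := hlog2 K hK
  rw [pow_one] at e2
  have e3 : (1:ℝ) ≤ (K:ℝ) ^ (1 - (u:ℝ) / v + e : ℝ) :=
    Real.one_le_rpow hKr (by linarith [huv.2])
  have e4 : (K:ℝ) ≤ (G0 * c2) * (K:ℝ) ^ (1 - (u:ℝ) / v + e : ℝ) * gth c K := by
    have f1 : (K:ℝ) = (K:ℝ) ^ (1 - (u:ℝ) / v) * (K:ℝ) ^ ((u:ℝ) / v) := by
      rw [← Real.rpow_add hKp]
      norm_num
    have f2 : (K:ℝ) ^ ((u:ℝ) / v) ≤ G0 * (c2 * (K:ℝ) ^ e) * gth c K :=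
      e1.trans (mul_le_mul_of_nonneg_right (mul_le_mul_of_nonneg_left e2 hG0.le) hg0.le)
    have f3 : (0:ℝ) ≤ (K:ℝ) ^ (1 - (u:ℝ) / v) := Real.rpow_nonneg hKp.le _
    calc (K:ℝ) = (K:ℝ) ^ (1 - (u:ℝ) / v) * (K:ℝ) ^ ((u:ℝ) / v) := f1
      _ ≤ (K:ℝ) ^ (1 - (u:ℝ) / v) * (G0 * (c2 * (K:ℝ) ^ e) * gth c K) :=
          mul_le_mul_of_nonneg_left f2 f3
      _ = (G0 * c2) * ((K:ℝ) ^ (1 - (u:ℝ) / v) * (K:ℝ) ^ e) * gth c K := by ring
      _ = _ := by rw [← Real.rpow_add hKp]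
  have e5 : (32 * ((2 * CC c : ℕ) : ℝ) * K : ℝ) / gth c K ≤
      64 * CC c * (G0 * c2) * (K:ℝ) ^ (1 - (u:ℝ) / v + e : ℝ) := by
    rw [div_le_iff₀ hg0]
    push_cast
    have := mul_le_mul_of_nonneg_left e4 (show (0:ℝ) ≤ 64 * CC c by positivity)
    linarith
  unfold sF
  linarith

/-- the near bound has the order of the complementary power -/
lemma nearF_le (H : UV u v) {a μ b c : ℕ} (hc : 2 ≤ c) {m e : ℝ} (hm1 : 1 ≤ m)
    (hμ : (μ:ℝ) ≤ m) (he : 0 < e) (hcd : (a:ℝ) * Real.log m ≤ e * (c * Real.log 2)) :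
    ∃ C0 : ℝ, 0 < C0 ∧ ∀ K : ℕ, 1 ≤ K →
      (nearF a μ b c K : ℝ) ≤ C0 * (K:ℝ) ^ (1 - (u:ℝ) / v + 2 * e : ℝ) := by
  obtain ⟨c2, hc2, hlog2⟩ := log_pow_le_all b e he
  set Q : ℝ := ((b + 1) * (c + 1) ^ b : ℝ) with hQ
  have hQ0 : 0 < Q := by positivity
  have hmp : 0 < m := by linarith
  have hC : (0:ℝ) < CC c := by exact_mod_cast CC_pos c
  refine ⟨m ^ (2 * a + b) * (Q * c2) * (CC c : ℝ) ^ 17, by positivity, fun K hK => ?_⟩
  have hKr : (1:ℝ) ≤ K := by exact_mod_cast hK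
  have hKp : (0:ℝ) < K := by linarith
  have h1 : ((μ:ℝ) ^ lenF a b c K) ≤ m ^ (2 * a + b) * (K:ℝ) ^ e := by
    have e1 : lenF a b c K = a * lg c K + (2 * a + b) := by unfold lenF; ring
    rw [e1]
    exact (pow_le_pow_left₀ (Nat.cast_nonneg _) hμ _).trans
      (pow_lg_le_rpow (c := c) (K := K) (a := a) (b := 2 * a + b) m hm1 e he.le hK hcd)
  have h2 : (plog b K : ℝ) ≤ Q * (c2 * (K:ℝ) ^ e) := by
    have e1 := Pool.Agent.Helper82.ETN.plog_le c b K (by omega) hK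
    have e2 : (1 + lg c K : ℝ) ^ b ≤ (1 + Real.log K) ^ b := by
      refine pow_le_pow_left₀ (add_nonneg zero_le_one (Nat.cast_nonneg _)) ?_ b
      have := lg_le_log hc hK
      linarith
    exact e1.trans (mul_le_mul_of_nonneg_left (e2.trans (hlog2 K hK)) hQ0.le)
  have h3 := H.rd_le (c := c) hK
  have h4 : (nearF a μ b c K : ℝ) = (μ:ℝ) ^ lenF a b c K * (plog b K : ℝ) *
      ((CC c ^ (ms (ep c K) - ep c K) : ℕ) : ℝ) := by
    unfold nearF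
    rw [Nat.cast_mul, Nat.cast_mul, Nat.cast_pow]
  rw [h4]
  have h5 : (0:ℝ) ≤ (K:ℝ) ^ e := Real.rpow_nonneg hKp.le _
  have h6 := mul_le_mul h1 h2 (Nat.cast_nonneg _) (by positivity)
  have h7 := mul_le_mul h6 h3 (Nat.cast_nonneg _) (by positivity)
  refine h7.trans (le_of_eq ?_)
  calc m ^ (2 * a + b) * (K:ℝ) ^ e * (Q * (c2 * (K:ℝ) ^ e)) *
        ((CC c : ℝ) ^ 17 * (K:ℝ) ^ (1 - (u:ℝ) / v))
      = m ^ (2 * a + b) * (Q * c2) * (CC c : ℝ) ^ 17 *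
        ((K:ℝ) ^ e * (K:ℝ) ^ e * (K:ℝ) ^ (1 - (u:ℝ) / v)) := by ring
    _ = m ^ (2 * a + b) * (Q * c2) * (CC c : ℝ) ^ 17 * (K:ℝ) ^ (1 - (u:ℝ) / v + 2 * e : ℝ) := by
        rw [← Real.rpow_add hKp, ← Real.rpow_add hKp]
        congr 2
        ring

/-- from bounds at the scales to the bound of the number of representations -/
lemma rep_le {near s : ℕ → ℕ} {β e d C0 : ℝ} (hβ : 0 ≤ β) (he : 0 < e) (hed : 3 * e ≤ d)
    (hC0 : 0 < C0)
    (h : ∀ K : ℕ, 1 ≤ K → ((max (near K) (s K) : ℕ) : ℝ) ≤ C0 * (K:ℝ) ^ (β + e : ℝ)) :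
    ∃ n0 : ℕ, ∀ n : ℕ, n0 ≤ n → ((repF near s n : ℕ) : ℝ) ≤ (Real.log n) ^ (β + d : ℝ) := by
  obtain ⟨c1, hc1, hlog1⟩ := log_pow_le_all 1 e he
  have hlogn : Tendsto (fun n : ℕ => Real.log (n:ℝ)) atTop atTop :=
    Real.tendsto_log_atTop.comp tendsto_natCast_atTop_atTop
  have hev : ∀ᶠ n : ℕ in atTop, 4 * (2 * c1) * C0 * 2 ^ (β + 2 * e) ≤ (Real.log (n:ℝ)) ^ e :=
    ((tendsto_rpow_atTop he).comp hlogn).eventually_ge_atTop _
  obtain ⟨n0, hn0⟩ := (hev.and (eventually_ge_atTop (2 ^ 4))).exists_forall_of_atTop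
  refine ⟨n0, fun n hn => ?_⟩
  obtain ⟨h1, h2⟩ := hn0 n hn
  set L := Nat.log 2 n with hL
  have hLK : 4 ≤ L := by
    rw [hL]
    exact Nat.le_log_of_pow_le one_lt_two h2
  have hn1 : n ≠ 0 := by omega
  have hnr : (1:ℝ) ≤ n := by exact_mod_cast Nat.one_le_iff_ne_zero.2 hn1
  have hlog0 : 0 ≤ Real.log (n:ℝ) := Real.log_nonneg hnr
  have hLr : (L:ℝ) ≤ 2 * Real.log n := by
    have e1 : ((2 ^ L : ℕ) : ℝ) ≤ n := by exact_mod_cast Nat.pow_log_le_self 2 hn1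
    have e2 : (L:ℝ) * Real.log 2 ≤ Real.log n := by
      rw [← Real.log_pow]
      refine Real.log_le_log (by positivity) ?_
      push_cast at e1
      exact e1
    have e3 := Real.log_two_gt_d9
    have e4 : (0:ℝ) ≤ L := Nat.cast_nonneg _
    nlinarith
  have hL4 : (4:ℝ) ≤ L := by exact_mod_cast hLK
  have hlog1' : 1 ≤ Real.log (n:ℝ) := by linarith
  have hlogpos : 0 < Real.log (n:ℝ) := by linarith
  -- one scale
  have one : ∀ K : ℕ, 1 ≤ K → K ≤ L →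
      (((Nat.log 2 K + 1) * max (near K) (s K) : ℕ) : ℝ) ≤
        2 * c1 * C0 * (2 * Real.log n) ^ (β + 2 * e) := by
    intro K hK hKL
    have hKr : (1:ℝ) ≤ K := by exact_mod_cast hK
    have hKp : (0:ℝ) < K := by linarith
    have a1 : ((Nat.log 2 K + 1 : ℕ) : ℝ) ≤ 2 * (1 + Real.log K) := by
      have b1 : ((2 ^ Nat.log 2 K : ℕ) : ℝ) ≤ K := by
        exact_mod_cast Nat.pow_log_le_self 2 (by omega)
      have b2 : (Nat.log 2 K : ℝ) * Real.log 2 ≤ Real.log K := by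
        rw [← Real.log_pow]
        refine Real.log_le_log (by positivity) ?_
        push_cast at b1
        exact b1
      have b3 := Real.log_two_gt_d9
      have b4 : (0:ℝ) ≤ (Nat.log 2 K : ℝ) := Nat.cast_nonneg _
      have b5 : 0 ≤ Real.log (K:ℝ) := Real.log_nonneg hKr
      push_cast
      nlinarith
    have a2 := hlog1 K hK
    rw [pow_one] at a2
    have a3 : ((Nat.log 2 K + 1 : ℕ) : ℝ) ≤ 2 * c1 * (K:ℝ) ^ e := by linarith
    have a4 := h K hK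
    rw [Nat.cast_mul]
    calc ((Nat.log 2 K + 1 : ℕ) : ℝ) * ((max (near K) (s K) : ℕ) : ℝ)
        ≤ (2 * c1 * (K:ℝ) ^ e) * (C0 * (K:ℝ) ^ (β + e : ℝ)) :=
          mul_le_mul a3 a4 (Nat.cast_nonneg _) (by positivity)
      _ = 2 * c1 * C0 * ((K:ℝ) ^ e * (K:ℝ) ^ (β + e : ℝ)) := by ring
      _ = 2 * c1 * C0 * (K:ℝ) ^ (β + 2 * e : ℝ) := by
          rw [← Real.rpow_add hKp]
          congr 2
          ring
      _ ≤ 2 * c1 * C0 * (2 * Real.log n) ^ (β + 2 * e) := by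
          refine mul_le_mul_of_nonneg_left ?_ (by positivity)
          refine Real.rpow_le_rpow hKp.le ?_ (by positivity)
          have : (K:ℝ) ≤ L := by exact_mod_cast hKL
          linarith
  have s1 := one (L - 1) (by omega) (by omega)
  have s2 := one L (by omega) le_rfl
  have b5 : (2 * Real.log n) ^ (β + 2 * e) = 2 ^ (β + 2 * e) * (Real.log n) ^ (β + 2 * e) :=
    Real.mul_rpow (by norm_num) hlog0
  have b6 : (Real.log n) ^ (β + 3 * e) = (Real.log n) ^ e * (Real.log n) ^ (β + 2 * e) := by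
    rw [← Real.rpow_add hlogpos]
    congr 1
    ring
  have b7 : 0 ≤ (Real.log n) ^ (β + 2 * e) := Real.rpow_nonneg hlog0 _
  have b8 : (Real.log n) ^ (β + 3 * e) ≤ (Real.log n) ^ (β + d) :=
    Real.rpow_le_rpow_of_exponent_le hlog1' (by linarith)
  refine le_trans ?_ b8
  unfold repF
  rw [← hL, Nat.cast_mul, Nat.cast_add, b6]
  rw [b5] at s1 s2
  have h3 := mul_le_mul_of_nonneg_right h1 b7
  push_cast at s1 s2 ⊢
  linarith

/-- **The numerical part.** -/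
theorem numPart (H : UV u v) (a μ : ℕ) : NumPart u v a μ := by
  intro d hd
  have huv := uv_half H
  set m : ℝ := max 1 (μ : ℝ) with hm
  have hm1 : 1 ≤ m := le_max_left _ _
  set e : ℝ := d / 6 with he
  have he0 : 0 < e := by positivity
  obtain ⟨c1, hc1⟩ := exists_nat_ge ((a:ℝ) * Real.log m / (e * Real.log 2))
  refine ⟨max c1 2, fun c hc b K1 hK1 => ?_⟩
  have hc2 : 2 ≤ c := (le_max_right _ _).trans hc
  have hc3 : (c1 : ℝ) ≤ c := by exact_mod_cast (le_max_left _ _).trans hc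
  have hlog2 : 0 < Real.log 2 := Real.log_pos one_lt_two
  have hcd : (a:ℝ) * Real.log m ≤ e * (c * Real.log 2) := by
    have h1 : (a:ℝ) * Real.log m / (e * Real.log 2) ≤ c := hc1.trans hc3
    rw [div_le_iff₀ (by positivity)] at h1
    calc (a:ℝ) * Real.log m ≤ c * (e * Real.log 2) := h1
      _ = _ := by ring
  have hK1' : 1 ≤ K1 := le_trans (Nat.one_le_pow _ _ (CC_pos c)) hK1
  obtain ⟨K0, hK0, hf⟩ := fail_lt H (a := a) (b := b) hc2 hK1'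
  obtain ⟨C1, hC1, h1⟩ := nearF_le H (a := a) (μ := μ) (b := b) hc2 hm1 (le_max_right _ _) he0 hcd
  obtain ⟨C2, hC2, h2⟩ := sF_le H hc2 (e := 2 * e) (by positivity)
  obtain ⟨n0, hn0⟩ := rep_le (near := nearF a μ b c) (s := sF c) (β := 1 - (u:ℝ) / v)
    (e := 2 * e) (d := d) (C0 := C1 + C2) (by linarith [huv.2]) (by positivity)
    (by rw [he]; linarith) (by positivity) (fun K hK => by
      have e1 := h1 K hK
      have e2 := h2 K hK
      have hKp : (0:ℝ) ≤ (K:ℝ) ^ (1 - (u:ℝ) / v + 2 * e : ℝ) :=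
        Real.rpow_nonneg (Nat.cast_nonneg _) _
      have e3 : 0 ≤ C1 * (K:ℝ) ^ (1 - (u:ℝ) / v + 2 * e : ℝ) := mul_nonneg hC1.le hKp
      have e4 : 0 ≤ C2 * (K:ℝ) ^ (1 - (u:ℝ) / v + 2 * e : ℝ) := mul_nonneg hC2.le hKp
      rw [Nat.cast_max, add_mul]
      exact max_le (by linarith) (by linarith))
  exact ⟨K0, sF c, hK0, hf, n0, hn0⟩

end Pool.Agent.Helper82.E3
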